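import Mathlib

namespace Pool.Agent.Lib.helper64

open Finset

theorem ramsey_aux (ι : Type*) [LinearOrder ι] (κ : Type*) [Fintype κ] (L : ℕ) :
    ∃ N : ℕ, ∀ (χ : ι → ι → κ) (I : Finset ι), N ≤ I.card →
      ∃ H ⊆ I, H.card = L ∧ ∃ f : ι → κ, ∀ a ∈ H, ∀ b ∈ H, a < b → χ a b = f a := by
  classical
  induction L with
  | zero =>
    refine ⟨2, fun χ I hI => ?_⟩
    obtain ⟨a, ha⟩ : I.Nonempty := Finset.card_pos.mp (by omega)
    exact ⟨∅, by simp, by simp, fun _ => χ a a, by simp⟩
  | succ L ih =>
    obtain ⟨N, hN⟩ := ih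
    refine ⟨Fintype.card κ * N + 2, fun χ I hI => ?_⟩
    have hne : I.Nonempty := Finset.card_pos.mp (by omega)
    set a := I.min' hne with ha
    have haI : a ∈ I := I.min'_mem hne
    have hcard : Fintype.card κ * N < (I.erase a).card := by
      rw [Finset.card_erase_of_mem haI]; omega
    obtain ⟨c, -, hc⟩ := Finset.exists_lt_card_fiber_of_mul_lt_card_of_maps_to
      (s := I.erase a) (t := Finset.univ) (f := fun b => χ a b) (n := N)
      (fun _ _ => Finset.mem_univ _) (by simpa using hcard)
    obtain ⟨H, hH, hHc, f, hf⟩ := hN χ _ hc.le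
    have haH : a ∉ H := fun h => by
      have := hH h
      simp at this
    refine ⟨insert a H, ?_, by rw [Finset.card_insert_of_notMem haH, hHc],
      Function.update f a c, ?_⟩
    · intro x hx
      rcases Finset.mem_insert.mp hx with rfl | hx
      · exact haI
      · have := hH hx
        simp only [Finset.mem_filter, Finset.mem_erase] at this
        exact this.1.2
    · intro x hx y hy hxy
      rcases Finset.mem_insert.mp hx with rfl | hx
      · rcases Finset.mem_insert.mp hy with rfl | hy
        · exact absurd hxy (lt_irrefl _)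
        · have := hH hy
          simp only [Finset.mem_filter] at this
          simp [this.2]
      · have hxa : x ≠ a := fun h => haH (h ▸ hx)
        rcases Finset.mem_insert.mp hy with rfl | hy
        · have := hH hx
          simp only [Finset.mem_filter, Finset.mem_erase] at this
          exact absurd (I.min'_le x this.1.2) (not_le.mpr hxy)
        · rw [Function.update_of_ne hxa]
          exact hf x hx y hy hxy

theorem ramsey (ι : Type*) [LinearOrder ι] (κ : Type*) [Fintype κ] (M : ℕ) :
    ∃ N : ℕ, ∀ (χ : ι → ι → κ) (I : Finset ι), N ≤ I.card →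
      ∃ H ⊆ I, M ≤ H.card ∧ ∃ c : κ, ∀ a ∈ H, ∀ b ∈ H, a < b → χ a b = c := by
  classical
  obtain ⟨N, hN⟩ := ramsey_aux ι κ (Fintype.card κ * M + 1)
  refine ⟨N, fun χ I hI => ?_⟩
  obtain ⟨H, hH, hHc, f, hf⟩ := hN χ I hI
  obtain ⟨c, -, hc⟩ := Finset.exists_lt_card_fiber_of_mul_lt_card_of_maps_to
      (s := H) (t := Finset.univ) (f := f) (n := M)
      (fun _ _ => Finset.mem_univ _) (by simp [hHc])
  refine ⟨_, (Finset.filter_subset _ _).trans hH, hc.le, c, ?_⟩
  intro a ha b hb hab
  simp only [Finset.mem_filter] at ha hb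
  rw [hf a ha.1 b hb.1 hab, ha.2]

end Pool.Agent.Lib.helper64
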